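import Pool.Agent.Results.MP_122452_an.AdmissiblePowerTwo
import Pool.Agent.H857R2.NC.MPT

/-!
# Admissible Banach spaces are superreflexive (MP_122452_an, Q2)

`AdmissiblePowerTwo` (a starting file) answers Q1. Here the power type 2 of the modulus of convexity
is carried over to all spaces which are finitely representable in an admissible space, and the
Milman-Pettis theorem (`Pool.Agent.H857R2.NC.MPT`, a starting file) makes these spaces reflexive.
-/

set_option autoImplicit false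

open Set

namespace Pool.Agent.Results.MP_122452_an.Superreflexive

open Pool.Agent.Results.MP_122452_an.AdmissiblePowerTwo

universe u v

/-- `Y` is finitely representable in `X`: every finite dimensional subspace of `Y` is
`(1 + ε)`-isomorphic to a subspace of `X`, for every `ε > 0`. -/
def FinitelyRepresentable (Y : Type v) [NormedAddCommGroup Y] [NormedSpace ℝ Y]
    (X : Type u) [NormedAddCommGroup X] [NormedSpace ℝ X] : Prop :=
  ∀ F : Submodule ℝ Y, FiniteDimensional ℝ F → ∀ ε : ℝ, 0 < ε →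
    ∃ T : F →ₗ[ℝ] X, ∀ y : F, ‖y‖ ≤ ‖T y‖ ∧ ‖T y‖ ≤ (1 + ε) * ‖y‖

/-- `Y` is reflexive: the canonical map into the bidual is surjective. -/
def Reflexive (Y : Type v) [NormedAddCommGroup Y] [NormedSpace ℝ Y] : Prop :=
  Function.Surjective (NormedSpace.inclusionInDoubleDual ℝ Y)

theorem powerType_of_rep (X : Type u) [NormedAddCommGroup X] [NormedSpace ℝ X]
    (Y : Type v) [NormedAddCommGroup Y] [NormedSpace ℝ Y] (hX : PowerTypeTwo X)
    (h : FinitelyRepresentable Y X) : PowerTypeTwo Y := by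
  obtain ⟨L, hL, hLX⟩ := hX
  refine ⟨L, hL, ?_⟩
  intro t ht x y hx hy hxy
  have key : ∀ ε : ℝ, 0 < ε → ε ≤ 1 →
      L * t ^ 2 ≤ 1 - ‖(1 / 2 : ℝ) • (x + y)‖ + (1 + 12 * L) * ε := by
    intro ε hε hε1
    set F : Submodule ℝ Y := Submodule.span ℝ {x, y} with hF
    have hfin : FiniteDimensional ℝ F := by
      rw [hF]
      exact FiniteDimensional.span_of_finite ℝ (by simp)
    have hxF : x ∈ F := Submodule.subset_span (by simp)
    have hyF : y ∈ F := Submodule.subset_span (by simp)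
    obtain ⟨T, hT⟩ := h F hfin ε hε
    set a := T ⟨x, hxF⟩ with ha
    set b := T ⟨y, hyF⟩ with hb
    have ha1 : 1 ≤ ‖a‖ ∧ ‖a‖ ≤ 1 + ε := by
      have := hT ⟨x, hxF⟩
      rw [Submodule.coe_norm, hx, mul_one] at this
      exact this
    have hb1 : 1 ≤ ‖b‖ ∧ ‖b‖ ≤ 1 + ε := by
      have := hT ⟨y, hyF⟩
      rw [Submodule.coe_norm, hy, mul_one] at this
      exact this
    have hsub : ‖x - y‖ ≤ ‖a - b‖ := by
      have := (hT (⟨x, hxF⟩ - ⟨y, hyF⟩)).1
      rw [map_sub] at this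
      exact this
    have hadd : ‖x + y‖ ≤ ‖a + b‖ := by
      have := (hT (⟨x, hxF⟩ + ⟨y, hyF⟩)).1
      rw [map_add] at this
      exact this
    have hunit : ∀ c : X, 1 ≤ ‖c‖ → ‖c‖ ≤ 1 + ε →
        ‖‖c‖⁻¹ • c‖ = 1 ∧ ‖c - ‖c‖⁻¹ • c‖ ≤ ε := by
      intro c h1 h2
      have hc : ‖c‖ ≠ 0 := by linarith
      constructor
      · rw [norm_smul, norm_inv, norm_norm, inv_mul_cancel₀ hc]
      · have e : c - ‖c‖⁻¹ • c = ((‖c‖ - 1) * ‖c‖⁻¹) • c := by
          rw [sub_mul, mul_inv_cancel₀ hc, one_mul, sub_smul, one_smul]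
        rw [e, norm_smul, norm_mul, norm_inv, norm_norm, mul_assoc, inv_mul_cancel₀ hc, mul_one,
          Real.norm_eq_abs, abs_of_nonneg (by linarith)]
        linarith
    obtain ⟨hu1, hu2⟩ := hunit a ha1.1 ha1.2
    obtain ⟨hv1, hv2⟩ := hunit b hb1.1 hb1.2
    set u := ‖a‖⁻¹ • a with hu
    set w := ‖b‖⁻¹ • b with hw
    have h1 : ‖a - b‖ ≤ ‖u - w‖ + 2 * ε := by
      have e : a - b = (u - w) + ((a - u) - (b - w)) := by abel
      calc ‖a - b‖ = ‖(u - w) + ((a - u) - (b - w))‖ := by rw [← e]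
        _ ≤ ‖u - w‖ + ‖(a - u) - (b - w)‖ := norm_add_le _ _
        _ ≤ ‖u - w‖ + (‖a - u‖ + ‖b - w‖) := by gcongr; exact norm_sub_le _ _
        _ ≤ ‖u - w‖ + 2 * ε := by linarith
    have h2 : ‖a + b‖ ≤ ‖u + w‖ + 2 * ε := by
      have e : a + b = (u + w) + ((a - u) + (b - w)) := by abel
      calc ‖a + b‖ = ‖(u + w) + ((a - u) + (b - w))‖ := by rw [← e]
        _ ≤ ‖u + w‖ + ‖(a - u) + (b - w)‖ := norm_add_le _ _
        _ ≤ ‖u + w‖ + (‖a - u‖ + ‖b - w‖) := by gcongr; exact norm_add_le _ _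
        _ ≤ ‖u + w‖ + 2 * ε := by linarith
    have h3 : ‖u - w‖ ≤ 2 := (norm_sub_le _ _).trans (by rw [hu1, hv1]; norm_num)
    have h4 := hLX ‖u - w‖ ⟨norm_nonneg _, h3⟩ u w hu1 hv1 le_rfl
    rw [norm_smul, Real.norm_eq_abs, abs_of_pos (by norm_num : (0 : ℝ) < 1 / 2)] at h4 ⊢
    have h5 : t ≤ ‖u - w‖ + 2 * ε := by linarith
    have h6 : t ^ 2 ≤ ‖u - w‖ ^ 2 + 12 * ε := by
      have ht0 : 0 ≤ t := ht.1
      have hn : 0 ≤ ‖u - w‖ := norm_nonneg _
      nlinarith [mul_nonneg hε.le (sub_nonneg.2 h3), mul_nonneg hε.le (sub_nonneg.2 hε1),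
        mul_self_nonneg (‖u - w‖ + 2 * ε - t), mul_le_mul h5 h5 ht0 (by linarith)]
    have h7 : L * t ^ 2 ≤ L * (‖u - w‖ ^ 2 + 12 * ε) := mul_le_mul_of_nonneg_left h6 hL.le
    nlinarith
  by_contra hcon
  push Not at hcon
  set D := L * t ^ 2 - (1 - ‖(1 / 2 : ℝ) • (x + y)‖) with hD
  have hD0 : 0 < D := by linarith
  have hC : 0 < 1 + 12 * L := by linarith
  have h8 := key (min 1 (D / (2 * (1 + 12 * L)))) (by positivity) (min_le_left _ _)
  have h9 : (1 + 12 * L) * min 1 (D / (2 * (1 + 12 * L))) ≤ D / 2 := by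
    calc (1 + 12 * L) * min 1 (D / (2 * (1 + 12 * L)))
        ≤ (1 + 12 * L) * (D / (2 * (1 + 12 * L))) := by gcongr; exact min_le_right _ _
      _ = D / 2 := by field_simp
  linarith

theorem uniformConvex (Y : Type v) [NormedAddCommGroup Y] [NormedSpace ℝ Y]
    (h : PowerTypeTwo Y) : UniformConvexSpace Y := by
  obtain ⟨L, hL, hY⟩ := h
  refine ⟨fun ε hε => ?_⟩
  have hm : 0 < min ε 2 := lt_min hε (by norm_num)
  refine ⟨2 * (L * (min ε 2) ^ 2), by positivity, ?_⟩
  intro x hx y hy hxy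
  have h1 := hY (min ε 2) ⟨hm.le, min_le_right _ _⟩ x y hx hy ((min_le_left _ _).trans hxy)
  rw [norm_smul, Real.norm_eq_abs, abs_of_pos (by norm_num : (0 : ℝ) < 1 / 2)] at h1
  linarith

/-- **Q2.** Every admissible Banach space `X` is superreflexive: every Banach space `Y` which is
finitely representable in `X` is reflexive; moreover `Y` has modulus of convexity of power type 2. -/
theorem result (X : Type u) [NormedAddCommGroup X] [NormedSpace ℝ X] [CompleteSpace X]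
    (hX : Admissible X) (Y : Type v) [NormedAddCommGroup Y] [NormedSpace ℝ Y] [CompleteSpace Y]
    (hY : FinitelyRepresentable Y X) : Reflexive Y ∧ PowerTypeTwo Y := by
  have h1 : PowerTypeTwo Y := powerType_of_rep X Y (AdmissiblePowerTwo.result X hX) hY
  have h2 : UniformConvexSpace Y := uniformConvex Y h1
  refine ⟨?_, h1⟩
  intro xi
  obtain ⟨y, hy⟩ := H857NC.MPT Y xi
  exact ⟨y, hy⟩

end Pool.Agent.Results.MP_122452_an.Superreflexive
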